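import Pool.Agent.Y5.F.Stm
import Pool.Agent.Y494.ND.Tools

/-!
Job S_PERT4 of the project NS/F (adapted from Pool/Agent/Y704/NE): scales, summability, decomposition of the trilinear form.
-/

open Set Filter Topology

set_option autoImplicit false
set_option linter.all false

namespace Pool.Agent.Y691.NS

open Pool.Agent.Y5.D Pool.Agent.Y5.E Pool.Agent.Y5.F

variable {J : Type} {g : J → ℕ} {κ μ lam Λ M : ℝ} {L C ℓ : ℕ → ℝ} {B : ℕ → ℕ → ℝ}
  {c : Ix J → Ix J → Ix J → ℝ}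

/-! ### Scales -/

section scales

theorem μ_one (hs : Sq4 κ μ lam Λ M L C ℓ B) : 1 ≤ μ := by
  have := hs.μ_big
  norm_num at this
  linarith

theorem μ_le (hs : Sq4 κ μ lam Λ M L C ℓ B) : μ ≤ lam := by
  have h1 := hs.μ_eq
  have h2 := μ_one hs
  have h3 := hs.κ0
  have h4 := hs.κ1
  have h5 : 0 < lam := by
    by_contra h
    push Not at h
    have := mul_nonpos_of_nonneg_of_nonpos h3.le h
    linarith
  rw [h1]
  exact mul_le_of_le_one_left h5.le h4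

theorem lam_big (hs : Sq4 κ μ lam Λ M L C ℓ B) : 10 ^ 30 ≤ lam := hs.μ_big.trans (μ_le hs)

theorem lam_one (hs : Sq4 κ μ lam Λ M L C ℓ B) : 1 ≤ lam := (μ_one hs).trans (μ_le hs)

theorem M_nn (hs : Sq4 κ μ lam Λ M L C ℓ B) : 0 ≤ M := zero_le_one.trans hs.M_one

theorem L_add (hs : Sq4 κ μ lam Λ M L C ℓ B) (p k : ℕ) : L (p + k) = lam ^ k * L p := by
  induction k with
  | zero => simp
  | succ k ih => rw [← add_assoc, hs.L_succ, ih, pow_succ]; ring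

theorem L_one (hs : Sq4 κ μ lam Λ M L C ℓ B) (n : ℕ) : 1 ≤ L n := by
  have h := L_add hs 0 n
  rw [zero_add] at h
  rw [h]
  have h1 := one_le_pow₀ (lam_one hs) (n := n)
  have h2 := hs.L0
  nlinarith

theorem L_nn (hs : Sq4 κ μ lam Λ M L C ℓ B) (n : ℕ) : 0 ≤ L n := zero_le_one.trans (L_one hs n)

theorem L_mono (hs : Sq4 κ μ lam Λ M L C ℓ B) {m n : ℕ} (h : m ≤ n) : L m ≤ L n := by
  obtain ⟨k, rfl⟩ := Nat.exists_eq_add_of_le h
  rw [L_add hs]
  have h1 := one_le_pow₀ (lam_one hs) (n := k)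
  have h2 := L_nn hs m
  nlinarith

theorem L_geo (hs : Sq4 κ μ lam Λ M L C ℓ B) (n : ℕ) : (2 : ℝ) ^ n ≤ L n := by
  have h := L_add hs 0 n
  rw [zero_add] at h
  rw [h]
  have h0 : (2 : ℝ) ≤ lam := by
    have := lam_big hs
    norm_num at this
    linarith
  have h1 : (2 : ℝ) ^ n ≤ lam ^ n := pow_le_pow_left₀ (by norm_num) h0 n
  have h2 := hs.L0
  have h3 : (0 : ℝ) ≤ lam ^ n := le_trans (by positivity) h1
  nlinarith

theorem Λ_nn (hs : Sq4 κ μ lam Λ M L C ℓ B) : 0 ≤ Λ := le_trans (by norm_num) hs.Λ_ge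

theorem Λ_one (hs : Sq4 κ μ lam Λ M L C ℓ B) : 1 ≤ Λ := le_trans (by norm_num) hs.Λ_ge

theorem Λ_le_lam (hs : Sq4 κ μ lam Λ M L C ℓ B) : Λ ≤ lam :=
  (le_self_pow₀ (Λ_one hs) two_ne_zero).trans (hs.Λ_sq.trans (μ_le hs))

theorem ρ_nn (hs : Sq4 κ μ lam Λ M L C ℓ B) : 0 ≤ (Λ / lam) :=
  div_nonneg (Λ_nn hs) (zero_le_one.trans (lam_one hs))

theorem ρ_le (hs : Sq4 κ μ lam Λ M L C ℓ B) : (Λ / lam) ≤ 1 :=
  (div_le_one (lt_of_lt_of_le one_pos (lam_one hs))).2 (Λ_le_lam hs)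

theorem lamρ (hs : Sq4 κ μ lam Λ M L C ℓ B) (k : ℕ) : lam ^ k * (Λ / lam) ^ k = Λ ^ k := by
  have h1 : lam ≠ 0 := (lt_of_lt_of_le one_pos (lam_one hs)).ne'
  rw [← mul_pow]
  congr 1
  field_simp

theorem LΛ (hs : Sq4 κ μ lam Λ M L C ℓ B) {p n : ℕ} (h : p ≤ n) :
    L p * Λ ^ (n - p) ≤ L n * (Λ / lam) ^ (n - p) := by
  obtain ⟨k, rfl⟩ := Nat.exists_eq_add_of_le h
  rw [L_add hs, Nat.add_sub_cancel_left]
  have h1 : lam ^ k * L p * (Λ / lam) ^ k = L p * Λ ^ k := by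
    rw [← lamρ hs]
    ring
  rw [h1]

theorem Lρ (hs : Sq4 κ μ lam Λ M L C ℓ B) {p n : ℕ} (h : p ≤ n) :
    L p ≤ L n * (Λ / lam) ^ (n - p) :=
  (le_mul_of_one_le_right (L_nn hs p) (one_le_pow₀ (Λ_one hs))).trans (LΛ hs h)

theorem ρ_pow_le (hs : Sq4 κ μ lam Λ M L C ℓ B) {a b : ℕ} (h : a ≤ b) :
    (Λ / lam) ^ b ≤ (Λ / lam) ^ a := pow_le_pow_of_le_one (ρ_nn hs) (ρ_le hs) h

theorem om_nn (hs : Sq4 κ μ lam Λ M L C ℓ B) (m p q : ℕ) : 0 ≤ om Λ M L m p q := by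
  have h1 := M_nn hs
  have h2 := Λ_nn hs
  have h3 := L_nn hs
  unfold om
  split_ifs
  · exact mul_nonneg (mul_nonneg h1 (h3 _)) (pow_nonneg h2 _)
  · exact mul_nonneg h1 (h3 _)

theorem om_le (hs : Sq4 κ μ lam Λ M L C ℓ B) (m p q : ℕ) : om Λ M L m p q ≤ M * L (min m q) := by
  have h1 := M_nn hs
  unfold om
  split_ifs with h
  · have h4 := LΛ hs h
    have h5 : (Λ / lam) ^ (min m q - p) ≤ 1 := pow_le_one₀ (ρ_nn hs) (ρ_le hs)
    have h6 := L_nn hs (min m q)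
    calc M * L p * Λ ^ (min m q - p) = M * (L p * Λ ^ (min m q - p)) := by ring
      _ ≤ M * (L (min m q) * (Λ / lam) ^ (min m q - p)) := by gcongr
      _ ≤ M * (L (min m q) * 1) := by gcongr
      _ = _ := by ring
  · exact le_rfl

end scales

/-! ### Vectors -/

noncomputable def nm (z : Ix J → ℝ) : ℝ := √(∑' i, z i ^ 2)

def InG (g : J → ℕ) (m : ℕ) (z : Ix J → ℝ) : Prop := ∀ i, gr g i ≠ m → z i = 0
def InLow (g : J → ℕ) (m : ℕ) (z : Ix J → ℝ) : Prop := ∀ i, m ≤ gr g i → z i = 0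
def InUp (g : J → ℕ) (m : ℕ) (z : Ix J → ℝ) : Prop := ∀ i, gr g i < m → z i = 0

/-- part in the group `p` -/
noncomputable def Pg (g : J → ℕ) (p : ℕ) (z : Ix J → ℝ) (a : Ix J) : ℝ := if gr g a = p then z a else 0
/-- part in the groups below `p` -/
noncomputable def Pl (g : J → ℕ) (p : ℕ) (z : Ix J → ℝ) (a : Ix J) : ℝ := if gr g a < p then z a else 0
/-- part in the groups from `p` on -/
noncomputable def Pu (g : J → ℕ) (p : ℕ) (z : Ix J → ℝ) (a : Ix J) : ℝ := if p ≤ gr g a then z a else 0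
/-- main modes -/
noncomputable def Pm (z : Ix J → ℝ) : Ix J → ℝ
  | Sum.inl n => z (Sum.inl n)
  | Sum.inr _ => 0
/-- other modes -/
noncomputable def Po (z : Ix J → ℝ) : Ix J → ℝ
  | Sum.inl _ => 0
  | Sum.inr j => z (Sum.inr j)

def Nice (g : J → ℕ) (L : ℕ → ℝ) (z : Ix J → ℝ) : Prop := Summable (fun a => L (gr g a) * |z a|)

theorem nm_nn (z : Ix J → ℝ) : 0 ≤ nm z := Real.sqrt_nonneg _

theorem nm_sq (z : Ix J → ℝ) : nm z ^ 2 = ∑' i, z i ^ 2 :=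
  Real.sq_sqrt (tsum_nonneg fun i => sq_nonneg _)

theorem Nice.mono (hs : Sq4 κ μ lam Λ M L C ℓ B) {z y : Ix J → ℝ} (hz : Nice g L z)
    (h : ∀ a, |y a| ≤ |z a|) : Nice g L y :=
  Summable.of_nonneg_of_le (fun a => mul_nonneg (L_nn hs _) (abs_nonneg _))
    (fun a => mul_le_mul_of_nonneg_left (h a) (L_nn hs _)) hz

theorem Nice.sum1 (hs : Sq4 κ μ lam Λ M L C ℓ B) {z : Ix J → ℝ} (hz : Nice g L z) :
    Summable (fun a => |z a|) :=
  Summable.of_nonneg_of_le (fun a => abs_nonneg _)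
    (fun a => le_mul_of_one_le_left (abs_nonneg _) (L_one hs _)) hz

theorem Nice.sq (hs : Sq4 κ μ lam Λ M L C ℓ B) {z : Ix J → ℝ} (hz : Nice g L z) :
    Summable (fun a => z a ^ 2) := by
  have h1 := hz.sum1 hs
  refine Summable.of_nonneg_of_le (fun a => sq_nonneg _) (fun a => ?_) (h1.mul_left (∑' a, |z a|))
  rw [← sq_abs, _root_.sq]
  exact mul_le_mul_of_nonneg_right (h1.le_tsum a fun _ _ => abs_nonneg _) (abs_nonneg _)

theorem Nice.add (hs : Sq4 κ μ lam Λ M L C ℓ B) {z y : Ix J → ℝ} (hz : Nice g L z) (hy : Nice g L y) :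
    Nice g L (fun a => z a + y a) :=
  Summable.of_nonneg_of_le (fun a => mul_nonneg (L_nn hs _) (abs_nonneg _))
    (fun a => by
      rw [← mul_add]
      exact mul_le_mul_of_nonneg_left (abs_add_le _ _) (L_nn hs _)) (Summable.add hz hy)

theorem Pg_le (p : ℕ) (z : Ix J → ℝ) (a : Ix J) : |Pg g p z a| ≤ |z a| := by
  unfold Pg; split_ifs; exacts [le_rfl, by simp]
theorem Pl_le (p : ℕ) (z : Ix J → ℝ) (a : Ix J) : |Pl g p z a| ≤ |z a| := by
  unfold Pl; split_ifs; exacts [le_rfl, by simp]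
theorem Pu_le (p : ℕ) (z : Ix J → ℝ) (a : Ix J) : |Pu g p z a| ≤ |z a| := by
  unfold Pu; split_ifs; exacts [le_rfl, by simp]
theorem Pm_le (z : Ix J → ℝ) (a : Ix J) : |Pm z a| ≤ |z a| := by
  cases a <;> simp [Pm]
theorem Po_le (z : Ix J → ℝ) (a : Ix J) : |Po z a| ≤ |z a| := by
  cases a <;> simp [Po]

theorem Nice.pg (hs : Sq4 κ μ lam Λ M L C ℓ B) {z : Ix J → ℝ} (hz : Nice g L z) (p : ℕ) :
    Nice g L (Pg g p z) := hz.mono hs (Pg_le p z)
theorem Nice.pl (hs : Sq4 κ μ lam Λ M L C ℓ B) {z : Ix J → ℝ} (hz : Nice g L z) (p : ℕ) :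
    Nice g L (Pl g p z) := hz.mono hs (Pl_le p z)
theorem Nice.pu (hs : Sq4 κ μ lam Λ M L C ℓ B) {z : Ix J → ℝ} (hz : Nice g L z) (p : ℕ) :
    Nice g L (Pu g p z) := hz.mono hs (Pu_le p z)
theorem Nice.pm (hs : Sq4 κ μ lam Λ M L C ℓ B) {z : Ix J → ℝ} (hz : Nice g L z) :
    Nice g L (Pm z) := hz.mono hs (Pm_le z)
theorem Nice.po (hs : Sq4 κ μ lam Λ M L C ℓ B) {z : Ix J → ℝ} (hz : Nice g L z) :
    Nice g L (Po z) := hz.mono hs (Po_le z)

theorem pm_po (z : Ix J → ℝ) (a : Ix J) : z a = Pm z a + Po z a := by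
  cases a <;> simp [Pm, Po]

theorem pl_pu (p : ℕ) (z : Ix J → ℝ) (a : Ix J) : z a = Pl g p z a + Pu g p z a := by
  unfold Pl Pu
  by_cases h : gr g a < p
  · rw [if_pos h, if_neg (by omega), add_zero]
  · rw [if_neg h, if_pos (by omega), zero_add]

theorem nm_mono (hs : Sq4 κ μ lam Λ M L C ℓ B) {z y : Ix J → ℝ} (hz : Nice g L z)
    (h : ∀ a, |y a| ≤ |z a|) : nm y ≤ nm z := by
  refine Real.sqrt_le_sqrt ?_
  refine ((hz.mono hs h).sq hs).tsum_le_tsum (fun a => ?_) (hz.sq hs)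
  rw [← sq_abs (y a), ← sq_abs (z a)]
  exact pow_le_pow_left₀ (abs_nonneg _) (h a) 2

/-! ### The size of the kernel -/

theorem nm_single (j : Ix J) [DecidableEq (Ix J)] : ∑' i, (Pi.single j (1 : ℝ) : Ix J → ℝ) i ^ 2 = 1 := by
  rw [tsum_eq_single j]
  · simp
  · intro i hi
    simp [Pi.single_eq_of_ne hi]

theorem tl_single (j a b : Ix J) [DecidableEq (Ix J)] :
    tl c (Pi.single j (1 : ℝ)) (Pi.single a 1) (Pi.single b 1) = c j a b := by
  unfold tl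
  rw [tsum_eq_single (j, (a, b))]
  · simp
  · rintro ⟨j', a', b'⟩ h
    by_cases h1 : j' = j
    · by_cases h2 : a' = a
      · by_cases h3 : b' = b
        · exact absurd (by rw [h1, h2, h3]) h
        · simp [Pi.single_eq_of_ne h3]
      · simp [Pi.single_eq_of_ne h2]
    · simp [Pi.single_eq_of_ne h1]

theorem size_om (hK : Ker g Λ M L C B c) (j a b : Ix J) :
    |c j a b| ≤ om Λ M L (gr g j) (gr g a) (gr g b) := by
  classical
  have h := hK.tri (gr g j) (gr g a) (gr g b) (Pi.single j 1) (Pi.single a 1) (Pi.single b 1)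
    (fun i hi => Pi.single_eq_of_ne (fun h => hi (by rw [h])) _)
    (fun i hi => Pi.single_eq_of_ne (fun h => hi (by rw [h])) _)
    (fun i hi => Pi.single_eq_of_ne (fun h => hi (by rw [h])) _)
  rw [tl_single, nm_single, nm_single, nm_single, Real.sqrt_one, mul_one, mul_one, mul_one] at h
  exact h

theorem size (hK : Ker g Λ M L C B c) (hs : Sq4 κ μ lam Λ M L C ℓ B) (j a b : Ix J) :
    |c j a b| ≤ M * L (gr g j) :=
  (size_om hK j a b).trans ((om_le hs _ _ _).trans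
    (mul_le_mul_of_nonneg_left (L_mono hs (min_le_left _ _)) (M_nn hs)))

/-! ### The trilinear form -/

/-- the terms -/
def tm (c : Ix J → Ix J → Ix J → ℝ) (α β γ : Ix J → ℝ) (t : Ix J × Ix J × Ix J) : ℝ :=
  c t.1 t.2.1 t.2.2 * α t.1 * β t.2.1 * γ t.2.2

theorem tl_eq (α β γ : Ix J → ℝ) : tl c α β γ = ∑' t, tm c α β γ t := rfl

theorem tm_summable (hK : Ker g Λ M L C B c) (hs : Sq4 κ μ lam Λ M L C ℓ B) {α β γ : Ix J → ℝ}
    (hα : Nice g L α) (hβ : Nice g L β) (hγ : Nice g L γ) : Summable (tm c α β γ) := by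
  have h1 : Summable (fun p : Ix J × Ix J => |β p.1| * |γ p.2|) :=
    (hβ.sum1 hs).mul_of_nonneg (hγ.sum1 hs) (fun _ => abs_nonneg _) (fun _ => abs_nonneg _)
  have h2 : Summable (fun t : Ix J × Ix J × Ix J => (M * (L (gr g t.1) * |α t.1|)) *
      (|β t.2.1| * |γ t.2.2|)) :=
    (Summable.mul_left M hα).mul_of_nonneg h1
      (fun a => mul_nonneg (M_nn hs) (mul_nonneg (L_nn hs _) (abs_nonneg _)))
      (fun p => mul_nonneg (abs_nonneg _) (abs_nonneg _))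
  refine Summable.of_norm_bounded h2 fun t => ?_
  unfold tm
  rw [Real.norm_eq_abs, abs_mul, abs_mul, abs_mul]
  have h3 := size hK hs t.1 t.2.1 t.2.2
  calc |c t.1 t.2.1 t.2.2| * |α t.1| * |β t.2.1| * |γ t.2.2|
      = |c t.1 t.2.1 t.2.2| * (|α t.1| * |β t.2.1| * |γ t.2.2|) := by ring
    _ ≤ M * L (gr g t.1) * (|α t.1| * |β t.2.1| * |γ t.2.2|) :=
        mul_le_mul_of_nonneg_right h3 (by positivity)
    _ = _ := by ring

theorem bl_summable (hK : Ker g Λ M L C B c) (hs : Sq4 κ μ lam Λ M L C ℓ B) {β γ : Ix J → ℝ}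
    (hβ : Nice g L β) (hγ : Nice g L γ) (i : Ix J) :
    Summable (fun p : Ix J × Ix J => c i p.1 p.2 * β p.1 * γ p.2) ∧
    |bl c β γ i| ≤ M * L (gr g i) * ((∑' a, |β a|) * ∑' a, |γ a|) := by
  have h1 : Summable (fun p : Ix J × Ix J => |β p.1| * |γ p.2|) :=
    (hβ.sum1 hs).mul_of_nonneg (hγ.sum1 hs) (fun _ => abs_nonneg _) (fun _ => abs_nonneg _)
  have hb : ∀ p : Ix J × Ix J, ‖c i p.1 p.2 * β p.1 * γ p.2‖ ≤
      M * L (gr g i) * (|β p.1| * |γ p.2|) := by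
    intro p
    rw [Real.norm_eq_abs, abs_mul, abs_mul, mul_assoc]
    exact mul_le_mul_of_nonneg_right (size hK hs _ _ _) (by positivity)
  refine ⟨Summable.of_norm_bounded (h1.mul_left _) hb, ?_⟩
  have h2 := tsum_of_norm_bounded (h1.mul_left (M * L (gr g i))).hasSum hb
  rw [tsum_mul_left, ← (hβ.sum1 hs).tsum_mul_tsum (hγ.sum1 hs) h1] at h2
  exact h2

theorem tl_bl (hK : Ker g Λ M L C B c) (hs : Sq4 κ μ lam Λ M L C ℓ B) {α β γ : Ix J → ℝ}
    (hα : Nice g L α) (hβ : Nice g L β) (hγ : Nice g L γ) :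
    Summable (fun i => α i * bl c β γ i) ∧ ∑' i, α i * bl c β γ i = tl c α β γ := by
  have h := tm_summable hK hs hα hβ hγ
  have e : ∀ i, ∑' p : Ix J × Ix J, tm c α β γ (i, p) = α i * bl c β γ i := by
    intro i
    unfold bl tm
    rw [← tsum_mul_left]
    exact tsum_congr fun p => by ring
  refine ⟨h.prod.congr fun i => e i, ?_⟩
  rw [tl_eq, h.tsum_prod]
  exact tsum_congr fun i => (e i).symm

theorem tl_swap (hK : Ker g Λ M L C B c) (α β γ : Ix J → ℝ) : tl c α β γ = -tl c γ β α := by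
  let e : Ix J × (Ix J × Ix J) ≃ Ix J × (Ix J × Ix J) :=
    { toFun := fun p => (p.2.2, (p.2.1, p.1))
      invFun := fun p => (p.2.2, (p.2.1, p.1))
      left_inv := fun p => rfl
      right_inv := fun p => rfl }
  rw [tl_eq, tl_eq, ← e.tsum_eq, ← tsum_neg]
  refine tsum_congr fun p => ?_
  show c p.2.2 p.2.1 p.1 * α p.2.2 * β p.2.1 * γ p.1 = -(c p.1 p.2.1 p.2.2 * γ p.1 * β p.2.1 * α p.2.2)
  rw [hK.anti p.2.2 p.2.1 p.1]
  ring

theorem tl_self (hK : Ker g Λ M L C B c) (α β : Ix J → ℝ) : tl c α β α = 0 := by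
  have := tl_swap hK α β α
  linarith

theorem tl_congr {α β γ α' β' γ' : Ix J → ℝ}
    (h : ∀ i a b, c i a b ≠ 0 → α i * β a * γ b = α' i * β' a * γ' b) :
    tl c α β γ = tl c α' β' γ' := by
  refine tsum_congr fun t => ?_
  by_cases hc : c t.1 t.2.1 t.2.2 = 0
  · rw [hc]; ring
  · have := h _ _ _ hc
    calc _ = c t.1 t.2.1 t.2.2 * (α t.1 * β t.2.1 * γ t.2.2) := by ring
      _ = _ := by rw [this]; ring

theorem tl_zero {α β γ : Ix J → ℝ} (h : ∀ i a b, c i a b ≠ 0 → α i * β a * γ b = 0) :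
    tl c α β γ = 0 := by
  have : tl c α β γ = tl c (fun _ => 0) β γ := tl_congr fun i a b hc => by
    rw [h i a b hc]; ring
  rw [this, tl_eq]
  have e : ∀ t, tm c (fun _ => 0) β γ t = 0 := fun t => by unfold tm; ring
  rw [tsum_congr e, tsum_zero]

theorem tl_add1 (hK : Ker g Λ M L C B c) (hs : Sq4 κ μ lam Λ M L C ℓ B) {α α' β γ : Ix J → ℝ}
    (hα : Nice g L α) (hα' : Nice g L α') (hβ : Nice g L β) (hγ : Nice g L γ) :
    tl c (fun a => α a + α' a) β γ = tl c α β γ + tl c α' β γ := by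
  rw [tl_eq, tl_eq, tl_eq, ← (tm_summable hK hs hα hβ hγ).tsum_add (tm_summable hK hs hα' hβ hγ)]
  exact tsum_congr fun t => by unfold tm; ring

theorem tl_add2 (hK : Ker g Λ M L C B c) (hs : Sq4 κ μ lam Λ M L C ℓ B) {α β β' γ : Ix J → ℝ}
    (hα : Nice g L α) (hβ : Nice g L β) (hβ' : Nice g L β') (hγ : Nice g L γ) :
    tl c α (fun a => β a + β' a) γ = tl c α β γ + tl c α β' γ := by
  rw [tl_eq, tl_eq, tl_eq, ← (tm_summable hK hs hα hβ hγ).tsum_add (tm_summable hK hs hα hβ' hγ)]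
  exact tsum_congr fun t => by unfold tm; ring

theorem tl_add3 (hK : Ker g Λ M L C B c) (hs : Sq4 κ μ lam Λ M L C ℓ B) {α β γ γ' : Ix J → ℝ}
    (hα : Nice g L α) (hβ : Nice g L β) (hγ : Nice g L γ) (hγ' : Nice g L γ') :
    tl c α β (fun a => γ a + γ' a) = tl c α β γ + tl c α β γ' := by
  rw [tl_eq, tl_eq, tl_eq, ← (tm_summable hK hs hα hβ hγ).tsum_add (tm_summable hK hs hα hβ hγ')]
  exact tsum_congr fun t => by unfold tm; ring

theorem pg_sum {s : Finset ℕ} {z : Ix J → ℝ} (h : ∀ a, gr g a ∉ s → z a = 0) (a : Ix J) :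
    z a = ∑ p ∈ s, Pg g p z a := by
  by_cases ha : gr g a ∈ s
  · rw [Finset.sum_eq_single_of_mem (gr g a) ha]
    · unfold Pg; rw [if_pos rfl]
    · intro p _ hp
      unfold Pg; rw [if_neg (fun h => hp h.symm)]
  · rw [h a ha]
    symm
    refine Finset.sum_eq_zero fun p hp => ?_
    unfold Pg
    split_ifs
    · exact h a ha
    · rfl

theorem tl_sum2 (hK : Ker g Λ M L C B c) (hs : Sq4 κ μ lam Λ M L C ℓ B) {α β γ : Ix J → ℝ}
    (hα : Nice g L α) (hβ : Nice g L β) (hγ : Nice g L γ) {s : Finset ℕ}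
    (h : ∀ a, gr g a ∉ s → β a = 0) : tl c α β γ = ∑ p ∈ s, tl c α (Pg g p β) γ := by
  simp only [tl_eq]
  rw [← Summable.tsum_finsetSum (fun p _ => tm_summable hK hs hα (hβ.pg hs p) hγ)]
  refine tsum_congr fun t => ?_
  unfold tm
  rw [← Finset.sum_mul, ← Finset.mul_sum, ← pg_sum h]

theorem tl_sum3 (hK : Ker g Λ M L C B c) (hs : Sq4 κ μ lam Λ M L C ℓ B) {α β γ : Ix J → ℝ}
    (hα : Nice g L α) (hβ : Nice g L β) (hγ : Nice g L γ) {s : Finset ℕ}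
    (h : ∀ a, gr g a ∉ s → γ a = 0) : tl c α β γ = ∑ p ∈ s, tl c α β (Pg g p γ) := by
  simp only [tl_eq]
  rw [← Summable.tsum_finsetSum (fun p _ => tm_summable hK hs hα hβ (hγ.pg hs p))]
  refine tsum_congr fun t => ?_
  unfold tm
  rw [← Finset.mul_sum, ← pg_sum h]

theorem tl_sum1 (hK : Ker g Λ M L C B c) (hs : Sq4 κ μ lam Λ M L C ℓ B) {α β γ : Ix J → ℝ}
    (hα : Nice g L α) (hβ : Nice g L β) (hγ : Nice g L γ) {s : Finset ℕ}
    (h : ∀ a, gr g a ∉ s → α a = 0) : tl c α β γ = ∑ p ∈ s, tl c (Pg g p α) β γ := by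
  simp only [tl_eq]
  rw [← Summable.tsum_finsetSum (fun p _ => tm_summable hK hs (hα.pg hs p) hβ hγ)]
  refine tsum_congr fun t => ?_
  unfold tm
  rw [← Finset.sum_mul, ← Finset.sum_mul, ← Finset.mul_sum, ← pg_sum h]

theorem Pg_in (p : ℕ) (z : Ix J → ℝ) : InG g p (Pg g p z) := fun i hi => if_neg hi

theorem blk (hK : Ker g Λ M L C B c) {α β γ : Ix J → ℝ} {m p q : ℕ}
    (hα : InG g m α) (hβ : InG g p β) (hγ : InG g q γ) :
    |tl c α β γ| ≤ om Λ M L m p q * nm α * nm β * nm γ := hK.tri m p q α β γ hα hβ hγ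

/-- advecting field in finitely many groups -/
theorem E2 (hK : Ker g Λ M L C B c) (hs : Sq4 κ μ lam Λ M L C ℓ B) {α β γ : Ix J → ℝ}
    (hα : Nice g L α) (hβ : Nice g L β) (hγ : Nice g L γ) {n q : ℕ} {s : Finset ℕ}
    (h : ∀ a, gr g a ∉ s → β a = 0) (h1 : InG g n α) (h2 : InG g q γ) {b : ℕ → ℝ}
    (hb : ∀ p ∈ s, nm (Pg g p β) ≤ b p) :
    |tl c α β γ| ≤ nm α * (∑ p ∈ s, om Λ M L n p q * b p) * nm γ := by
  rw [tl_sum2 hK hs hα hβ hγ h]
  refine (Finset.abs_sum_le_sum_abs _ _).trans ?_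
  rw [Finset.mul_sum, Finset.sum_mul]
  refine Finset.sum_le_sum fun p hp => ?_
  refine (blk hK h1 (Pg_in p β) h2).trans ?_
  have h3 := om_nn hs n p q
  have h4 := nm_nn α
  have h5 := nm_nn γ
  calc om Λ M L n p q * nm α * nm (Pg g p β) * nm γ ≤ om Λ M L n p q * nm α * b p * nm γ := by
        gcongr
        exact hb p hp
    _ = _ := by ring

/-- advected field in finitely many groups -/
theorem E3 (hK : Ker g Λ M L C B c) (hs : Sq4 κ μ lam Λ M L C ℓ B) {α β γ : Ix J → ℝ}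
    (hα : Nice g L α) (hβ : Nice g L β) (hγ : Nice g L γ) {n p : ℕ} {s : Finset ℕ}
    (h : ∀ a, gr g a ∉ s → γ a = 0) (h1 : InG g n α) (h2 : InG g p β) {b : ℕ → ℝ}
    (hb : ∀ q ∈ s, nm (Pg g q γ) ≤ b q) :
    |tl c α β γ| ≤ nm α * nm β * (∑ q ∈ s, om Λ M L n p q * b q) := by
  rw [tl_sum3 hK hs hα hβ hγ h]
  refine (Finset.abs_sum_le_sum_abs _ _).trans ?_
  rw [Finset.mul_sum]
  refine Finset.sum_le_sum fun q hq => ?_
  refine (blk hK h1 h2 (Pg_in q γ)).trans ?_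
  have h3 := om_nn hs n p q
  have h4 := nm_nn α
  have h5 := nm_nn β
  calc om Λ M L n p q * nm α * nm β * nm (Pg g q γ) ≤ om Λ M L n p q * nm α * nm β * b q := by
        gcongr
        exact hb q hq
    _ = _ := by ring

end Pool.Agent.Y691.NS
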